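import Mathlib

set_option autoImplicit false

open Set Real
open scoped ContDiff NNReal ENNReal

namespace Pool.Agent.Results.MP_d5a48f_an.CurveStretching

/-- The plane, universal cover of the torus. -/
abbrev Plane : Type := EuclideanSpace ℝ (Fin 2)

/-- The flat torus `(ℝ/2πℤ)²`, with the Euclidean product metric of the two circles. -/
abbrev Torus : Type := PiLp 2 (fun _ : Fin 2 => AddCircle (2 * Real.pi))

/-- The covering map from the plane to the torus. -/
noncomputable def proj (x : Plane) : Torus :=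
  WithLp.toLp 2 (fun i => ((x i : ℝ) : AddCircle (2 * Real.pi)))

/-- Functions on the torus, written as functions on the plane that are `2π`-periodic in each
coordinate. -/
def DoublyPeriodic {β : Type} (f : Plane → β) : Prop :=
  ∀ (x : Plane) (i : Fin 2), f (x + EuclideanSpace.single i (2 * Real.pi)) = f x

/-- `(u, p)` is a smooth solution, for all times, of the incompressible Euler equations
`∂ₜu + (u·∇)u + ∇p = 0`, `∇·u = 0` on the torus. -/
structure IsEulerSolution (u : ℝ → Plane → Plane) (p : ℝ → Plane → ℝ) : Prop where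
  smooth_velocity : ContDiff ℝ ∞ (fun z : ℝ × Plane => u z.1 z.2)
  smooth_pressure : ContDiff ℝ ∞ (fun z : ℝ × Plane => p z.1 z.2)
  periodic_velocity : ∀ t, DoublyPeriodic (u t)
  periodic_pressure : ∀ t, DoublyPeriodic (p t)
  momentum : ∀ t x,
    deriv (fun τ => u τ x) t + fderiv ℝ (u t) x (u t x) + gradient (p t) x = 0
  divergence_free : ∀ t x, ∑ i, fderiv ℝ (u t) x (EuclideanSpace.single i 1) i = 0

/-- `Φ` is the Lagrangian flow map of `u` (lifted to the plane): `∂ₜΦ_t(x) = u(t, Φ_t(x))`,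
`Φ_0(x) = x`, and `Φ_t` descends to the torus. -/
structure IsFlow (u : ℝ → Plane → Plane) (Φ : ℝ → Plane → Plane) : Prop where
  initial : ∀ x, Φ 0 x = x
  hasDerivAt : ∀ t x, HasDerivAt (fun τ => Φ τ x) (u t (Φ t x)) t
  descends : ∀ t x i, Φ t (x + EuclideanSpace.single i (2 * Real.pi)) =
    Φ t x + EuclideanSpace.single i (2 * Real.pi)

/-- `L(t)`: the length on the flat torus of the transported curve `Φ_t ∘ l`, where the curve
`l : [0,1] → 𝕋²` is given by a lift to the plane. Lengths are total variations. -/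
noncomputable def imageLength (Φ : ℝ → Plane → Plane) (l : ℝ → Plane) (t : ℝ) : ℝ≥0∞ :=
  eVariationOn (fun s => proj (Φ t (l s))) (Set.Icc 0 1)

/-- The velocity of the steady cellular flow. -/
noncomputable def U (x : Plane) : Plane :=
  WithLp.toLp 2 ![sin (x 0) * cos (x 1), -(cos (x 0) * sin (x 1))]

/-- The pressure of the steady cellular flow. -/
noncomputable def P (x : Plane) : ℝ := (cos (2 * x 0) + cos (2 * x 1)) / 4

noncomputable def DU (x : Plane) : Plane →L[ℝ] Plane :=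
  LinearMap.toContinuousLinearMap
    { toFun := fun v => WithLp.toLp 2
        ![cos (x 0) * cos (x 1) * v 0 - sin (x 0) * sin (x 1) * v 1,
          sin (x 0) * sin (x 1) * v 0 - cos (x 0) * cos (x 1) * v 1]
      map_add' := by
        intro v w
        ext i
        fin_cases i <;> simp <;> ring
      map_smul' := by
        intro c v
        ext i
        fin_cases i <;> simp <;> ring }

lemma DU_apply_zero (x v : Plane) :
    DU x v 0 = cos (x 0) * cos (x 1) * v 0 - sin (x 0) * sin (x 1) * v 1 := by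
  simp [DU]

lemma DU_apply_one (x v : Plane) :
    DU x v 1 = sin (x 0) * sin (x 1) * v 0 - cos (x 0) * cos (x 1) * v 1 := by
  simp [DU]

lemma hasFDerivAt_coord (i : Fin 2) (x : Plane) :
    HasFDerivAt (fun y : Plane => y i) (EuclideanSpace.proj i : Plane →L[ℝ] ℝ) x :=
  (EuclideanSpace.proj i : Plane →L[ℝ] ℝ).hasFDerivAt

lemma hasFDerivAt_U (x : Plane) : HasFDerivAt U (DU x) x := by
  rw [← hasFDerivWithinAt_univ, hasFDerivWithinAt_euclidean]
  intro i
  rw [hasFDerivWithinAt_univ]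
  have h0 := hasFDerivAt_coord 0 x
  have h1 := hasFDerivAt_coord 1 x
  fin_cases i
  · have := (h0.sin).mul (h1.cos)
    simp only [U]
    refine (this.congr_fderiv ?_)
    ext v
    simp [DU_apply_zero]
    ring
  · have := ((h0.cos).mul (h1.sin)).neg
    simp only [U]
    refine (this.congr_fderiv ?_)
    ext v
    simp [DU_apply_one]
    ring

lemma hasGradientAt_P (x : Plane) :
    HasGradientAt P (WithLp.toLp 2 ![-(sin (x 0) * cos (x 0)), -(sin (x 1) * cos (x 1))]) x := by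
  rw [hasGradientAt_iff_hasFDerivAt]
  have h0 := ((hasFDerivAt_coord 0 x).const_mul 2).cos
  have h1 := ((hasFDerivAt_coord 1 x).const_mul 2).cos
  have := (h0.add h1).mul_const (1/4 : ℝ)
  refine (this.congr_fderiv ?_).congr_of_eventuallyEq (Filter.Eventually.of_forall fun y => ?_)
  · ext v
    simp [PiLp.inner_apply, Fin.sum_univ_two, sin_two_mul]
    ring
  · simp [P]
    ring

lemma gradient_P (x : Plane) :
    gradient P x = WithLp.toLp 2 ![-(sin (x 0) * cos (x 0)), -(sin (x 1) * cos (x 1))] :=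
  (hasGradientAt_P x).gradient

lemma steady (x : Plane) : DU x (U x) + gradient P x = 0 := by
  rw [gradient_P]
  ext i
  fin_cases i
  · simp [DU_apply_zero, U]
    have := sin_sq_add_cos_sq (x 1)
    linear_combination (sin (x 0) * cos (x 0)) * this
  · simp [DU_apply_one, U]
    have := sin_sq_add_cos_sq (x 0)
    linear_combination (sin (x 1) * cos (x 1)) * this

lemma norm_U_le (x : Plane) : ‖U x‖ ≤ 1 := by
  rw [EuclideanSpace.norm_eq]
  rw [Real.sqrt_le_one]
  simp [U, Fin.sum_univ_two]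
  nlinarith [sin_sq_add_cos_sq (x 0), sin_sq_add_cos_sq (x 1), sq_nonneg (sin (x 0)), sq_nonneg (cos (x 0)), sq_nonneg (sin (x 1)), sq_nonneg (cos (x 1)), mul_nonneg (sq_nonneg (sin (x 0))) (sq_nonneg (sin (x 1))), mul_nonneg (sq_nonneg (cos (x 0))) (sq_nonneg (cos (x 1)))]


lemma norm_DU_apply_le (x v : Plane) : ‖DU x v‖ ≤ ‖v‖ := by
  rw [EuclideanSpace.norm_eq, EuclideanSpace.norm_eq]
  apply Real.sqrt_le_sqrt
  simp only [Fin.sum_univ_two, Real.norm_eq_abs, sq_abs, DU_apply_zero, DU_apply_one]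
  have hs0 := sin_sq_add_cos_sq (x 0)
  have hs1 := sin_sq_add_cos_sq (x 1)
  set a := cos (x 0) * cos (x 1) with ha
  set b := sin (x 0) * sin (x 1) with hb
  -- |a| + |b| ≤ 1
  have h1 : a + b ≤ 1 := by
    have : a + b = cos (x 0 - x 1) := by rw [cos_sub]
    rw [this]; exact cos_le_one _
  have h2 : a - b ≤ 1 := by
    have : a - b = cos (x 0 + x 1) := by rw [cos_add]
    rw [this]; exact cos_le_one _
  have h3 : -1 ≤ a + b := by
    have : a + b = cos (x 0 - x 1) := by rw [cos_sub]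
    rw [this]; exact neg_one_le_cos _
  have h4 : -1 ≤ a - b := by
    have : a - b = cos (x 0 + x 1) := by rw [cos_add]
    rw [this]; exact neg_one_le_cos _
  have h5 : (a + b) ^ 2 ≤ 1 := by nlinarith
  have h6 : (a - b) ^ 2 ≤ 1 := by nlinarith
  have key : v 0 ^ 2 + v 1 ^ 2 - ((a * v 0 - b * v 1) ^ 2 + (b * v 0 - a * v 1) ^ 2)
      = (1 - (a + b) ^ 2) * ((v 0 - v 1) ^ 2 / 2) + (1 - (a - b) ^ 2) * ((v 0 + v 1) ^ 2 / 2) := by
    ring
  nlinarith [mul_nonneg (sub_nonneg.2 h5) (div_nonneg (sq_nonneg (v 0 - v 1)) (by norm_num : (0:ℝ) ≤ 2)),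
    mul_nonneg (sub_nonneg.2 h6) (div_nonneg (sq_nonneg (v 0 + v 1)) (by norm_num : (0:ℝ) ≤ 2))]

lemma fderiv_U (x : Plane) : fderiv ℝ U x = DU x := (hasFDerivAt_U x).fderiv

lemma norm_fderiv_U_le (x : Plane) : ‖fderiv ℝ U x‖ ≤ 1 := by
  rw [fderiv_U]
  refine ContinuousLinearMap.opNorm_le_bound _ zero_le_one fun v => ?_
  rw [one_mul]
  exact norm_DU_apply_le x v

lemma lipschitz_U : LipschitzWith 1 U := by
  apply lipschitzWith_of_nnnorm_fderiv_le (𝕜 := ℝ)
  · exact fun x => (hasFDerivAt_U x).differentiableAt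
  · intro x
    exact norm_fderiv_U_le x

lemma div_U (x : Plane) : ∑ i, fderiv ℝ U x (EuclideanSpace.single i 1) i = 0 := by
  rw [fderiv_U, Fin.sum_univ_two, DU_apply_zero, DU_apply_one]
  simp

/-- local-in-time solutions on symmetric intervals -/
lemma exists_local (x : Plane) (T : ℝ) (hT : 0 ≤ T) :
    ∃ α : ℝ → Plane, α 0 = x ∧
      ∀ t ∈ Icc (-T) T, HasDerivWithinAt α (U (α t)) (Icc (-T) T) t := by
  have h0 : (0:ℝ) ∈ Icc (-T) T := ⟨by linarith, hT⟩
  have hpl : IsPicardLindelof (fun _ => U) (tmin := -T) (tmax := T) ⟨0, h0⟩ x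
      ⟨T, hT⟩ 0 1 1 := by
    apply IsPicardLindelof.of_time_independent
    · intro y _
      exact norm_U_le y
    · exact lipschitz_U.lipschitzOnWith
    · simp
      exact le_rfl
  obtain ⟨α, h1, h2⟩ := hpl.exists_eq_forall_mem_Icc_hasDerivWithinAt₀
  exact ⟨α, h1, h2⟩

lemma exists_global (x : Plane) :
    ∃ α : ℝ → Plane, α 0 = x ∧ ∀ t, HasDerivAt α (U (α t)) t := by
  choose β hβ0 hβ using fun n : ℕ => exists_local x (n + 1) (by positivity)
  have hder : ∀ n : ℕ, ∀ t ∈ Ioo (-(n + 1 : ℝ)) (n + 1), HasDerivAt (β n) (U (β n t)) t :=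
    fun n t ht => (hβ n t (Ioo_subset_Icc_self ht)).hasDerivAt (Icc_mem_nhds ht.1 ht.2)
  have huniq : ∀ m n : ℕ, m ≤ n → EqOn (β m) (β n) (Ioo (-(m + 1 : ℝ)) (m + 1)) := by
    intro m n hmn
    have hmn' : (m : ℝ) ≤ n := by exact_mod_cast hmn
    refine ODE_solution_unique_of_mem_Ioo (v := fun _ => U) (s := fun _ => univ) (K := 1)
      (t₀ := 0) ?_ ⟨by have : (0:ℝ) ≤ m := by positivity
                       linarith, by positivity⟩ ?_ ?_ ?_
    · intro t _; exact lipschitz_U.lipschitzOnWith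
    · intro t ht; exact ⟨hder m t ht, mem_univ _⟩
    · intro t ht
      exact ⟨hder n t ⟨by linarith [ht.1], by linarith [ht.2]⟩, mem_univ _⟩
    · rw [hβ0, hβ0]
  let α : ℝ → Plane := fun t => β ⌈|t|⌉₊ t
  have hα : ∀ n : ℕ, EqOn α (β n) (Ioo (-(n + 1 : ℝ)) (n + 1)) := by
    intro n t ht
    rcases le_total ⌈|t|⌉₊ n with h | h
    · refine huniq _ _ h ?_
      have := Nat.le_ceil |t|
      exact ⟨by linarith [neg_abs_le t], by linarith [le_abs_self t]⟩
    · exact (huniq _ _ h ht).symm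
  refine ⟨α, ?_, ?_⟩
  · simp [α, hβ0]
  · intro t
    set n := ⌈|t|⌉₊ with hn
    have := Nat.le_ceil |t|
    have ht : t ∈ Ioo (-(n + 1 : ℝ)) (n + 1) :=
      ⟨by linarith [neg_abs_le t], by linarith [le_abs_self t]⟩
    have h1 := hder n t ht
    have h2 : α =ᶠ[nhds t] β n := by
      filter_upwards [isOpen_Ioo.mem_nhds ht] with s hs using hα n hs
    rw [hα n ht]
    exact h1.congr_of_eventuallyEq h2


section traj

variable {α : ℝ → Plane}

lemma hasDerivAt_X (hα : ∀ t, HasDerivAt α (U (α t)) t) (t : ℝ) :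
    HasDerivAt (fun s => α s 0) (sin (α t 0) * cos (α t 1)) t := by
  have := (hasFDerivAt_coord 0 (α t)).comp_hasDerivAt t (hα t)
  simpa [U, Function.comp_def] using this

lemma hasDerivAt_Y (hα : ∀ t, HasDerivAt α (U (α t)) t) (t : ℝ) :
    HasDerivAt (fun s => α s 1) (-(cos (α t 0) * sin (α t 1))) t := by
  have := (hasFDerivAt_coord 1 (α t)).comp_hasDerivAt t (hα t)
  simpa [U, Function.comp_def] using this

lemma mul_sinc (x : ℝ) : x * sinc x = sin x := by
  by_cases h : x = 0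
  · simp [h]
  · rw [sinc_of_ne_zero h]
    field_simp

lemma one_sub_le_sinc {x : ℝ} (hx : 0 ≤ x) : 1 - x ^ 2 / 6 ≤ sinc x := by
  rcases hx.eq_or_lt with h | h
  · simp [← h]
  · rw [sinc_of_ne_zero h.ne', le_div_iff₀ h]
    have := sin_gt_sub_cube h
    nlinarith

lemma X_formula (hα : ∀ t, HasDerivAt α (U (α t)) t) (t : ℝ) :
    α t 0 = α 0 0 * exp (∫ s in (0:ℝ)..t, sinc (α s 0) * cos (α s 1)) := by
  have hc : Continuous α := continuous_iff_continuousAt.2 fun t => (hα t).continuousAt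
  have hc0 : Continuous fun s => α s 0 :=
    continuous_iff_continuousAt.2 fun t => (hasDerivAt_X hα t).continuousAt
  have hc1 : Continuous fun s => α s 1 :=
    continuous_iff_continuousAt.2 fun t => (hasDerivAt_Y hα t).continuousAt
  have hφ : Continuous fun s => sinc (α s 0) * cos (α s 1) :=
    (continuous_sinc.comp hc0).mul (continuous_cos.comp hc1)
  have hI : ∀ t, HasDerivAt (fun t => ∫ s in (0:ℝ)..t, sinc (α s 0) * cos (α s 1))
      (sinc (α t 0) * cos (α t 1)) t := fun t =>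
    intervalIntegral.integral_hasDerivAt_right (hφ.intervalIntegrable _ _)
      hφ.stronglyMeasurable.stronglyMeasurableAtFilter hφ.continuousAt
  have hconst : ∀ t, HasDerivAt (fun t => α t 0 *
      exp (-(∫ s in (0:ℝ)..t, sinc (α s 0) * cos (α s 1)))) 0 t := by
    intro t
    have := (hasDerivAt_X hα t).mul ((hI t).neg.exp)
    refine this.congr_deriv ?_
    rw [← mul_sinc (α t 0)]
    ring
  have h2 := is_const_of_deriv_eq_zero (fun t => (hconst t).differentiableAt)
    (fun t => (hconst t).deriv) t 0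
  simp only [intervalIntegral.integral_same, neg_zero, exp_zero, mul_one] at h2
  rw [← h2, mul_assoc, ← exp_add]
  simp

lemma X_le (hα : ∀ t, HasDerivAt α (U (α t)) t) (h0 : 0 ≤ α 0 0) {t : ℝ} (ht : 0 ≤ t) :
    α t 0 ≤ α 0 0 * exp t := by
  rw [X_formula hα t]
  have hc0 : Continuous fun s => α s 0 :=
    continuous_iff_continuousAt.2 fun t => (hasDerivAt_X hα t).continuousAt
  have hc1 : Continuous fun s => α s 1 :=
    continuous_iff_continuousAt.2 fun t => (hasDerivAt_Y hα t).continuousAt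
  have hφ : Continuous fun s => sinc (α s 0) * cos (α s 1) :=
    (continuous_sinc.comp hc0).mul (continuous_cos.comp hc1)
  have : ∫ s in (0:ℝ)..t, sinc (α s 0) * cos (α s 1) ≤ ∫ s in (0:ℝ)..t, (1:ℝ) := by
    apply intervalIntegral.integral_mono_on ht (hφ.intervalIntegrable _ _)
      (continuous_const.intervalIntegrable _ _)
    intro s _
    have h1 := abs_sinc_le_one (α s 0)
    have h2 := abs_cos_le_one (α s 1)
    calc sinc (α s 0) * cos (α s 1) ≤ |sinc (α s 0) * cos (α s 1)| := le_abs_self _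
      _ = |sinc (α s 0)| * |cos (α s 1)| := abs_mul _ _
      _ ≤ 1 * 1 := by gcongr
      _ = 1 := by norm_num
  simp only [intervalIntegral.integral_const, sub_zero, smul_eq_mul, mul_one] at this
  gcongr

lemma X_nonneg (hα : ∀ t, HasDerivAt α (U (α t)) t) (h0 : 0 ≤ α 0 0) (t : ℝ) :
    0 ≤ α t 0 := by
  rw [X_formula hα t]
  positivity

lemma X_eq_zero (hα : ∀ t, HasDerivAt α (U (α t)) t) (h0 : α 0 0 = 0) (t : ℝ) :
    α t 0 = 0 := by
  rw [X_formula hα t, h0, zero_mul]

lemma X_ge (hα : ∀ t, HasDerivAt α (U (α t)) t) (h0 : 0 ≤ α 0 0) {t : ℝ} (ht : 0 ≤ t)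
    (h1 : α 0 0 * exp t ≤ 1) :
    α 0 0 * exp t * exp (-(1 / 12 + t * (α 0 1) ^ 2 / 2)) ≤ α t 0 := by
  have hXle : ∀ s ∈ Icc 0 t, α s 0 ≤ 1 := by
    intro s hs
    refine (X_le hα h0 hs.1).trans (le_trans ?_ h1)
    gcongr
    exact hs.2
  have hmono : MonotoneOn (fun s => cos (α s 1)) (Icc 0 t) := by
    have hd : ∀ s, HasDerivAt (fun s => cos (α s 1))
        (-sin (α s 1) * (-(cos (α s 0) * sin (α s 1)))) s := fun s => (hasDerivAt_Y hα s).cos
    apply monotoneOn_of_deriv_nonneg (convex_Icc 0 t)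
    · exact fun s _ => (hd s).continuousAt.continuousWithinAt
    · exact fun s _ => (hd s).differentiableAt.differentiableWithinAt
    · intro s hs
      rw [interior_Icc] at hs
      rw [(hd s).deriv]
      have h3 : 0 ≤ cos (α s 0) := by
        apply cos_nonneg_of_mem_Icc
        have h4 := X_nonneg hα h0 s
        have h5 := hXle s (Ioo_subset_Icc_self hs)
        have h6 := pi_gt_three
        exact ⟨by linarith, by linarith⟩
      nlinarith [mul_nonneg h3 (sq_nonneg (sin (α s 1)))]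
  have hcosY : ∀ s ∈ Icc 0 t, 1 - (α 0 1) ^ 2 / 2 ≤ cos (α s 1) := by
    intro s hs
    refine le_trans one_sub_sq_div_two_le_cos (hmono ⟨le_rfl, ht⟩ hs hs.1)
  have hφ : ∀ s ∈ Icc 0 t, 1 - (α 0 0) ^ 2 * exp (2 * s) / 6 - (α 0 1) ^ 2 / 2
      ≤ sinc (α s 0) * cos (α s 1) := by
    intro s hs
    have ha := one_sub_le_sinc (X_nonneg hα h0 s)
    have ha1 := sinc_le_one (α s 0)
    have hb := hcosY s hs
    have hb1 := cos_le_one (α s 1)
    have hc : (α s 0) ^ 2 ≤ (α 0 0) ^ 2 * exp (2 * s) := by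
      have h6 := X_le hα h0 hs.1
      have h7 : (α 0 0 * exp s) ^ 2 = (α 0 0) ^ 2 * exp (2 * s) := by
        rw [mul_pow, ← exp_nat_mul]; norm_num
      rw [← h7]
      exact pow_le_pow_left₀ (X_nonneg hα h0 s) h6 2
    nlinarith [mul_nonneg (sub_nonneg.2 ha1) (sub_nonneg.2 hb1)]
  -- monotone quantity
  have hd : ∀ s, HasDerivAt (fun s => α s 0 *
      exp (-(s - (α 0 0) ^ 2 * exp (2 * s) / 12 - s * ((α 0 1) ^ 2 / 2))))
      ((sin (α s 0) * cos (α s 1)) *
        exp (-(s - (α 0 0) ^ 2 * exp (2 * s) / 12 - s * ((α 0 1) ^ 2 / 2))) + α s 0 *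
        (exp (-(s - (α 0 0) ^ 2 * exp (2 * s) / 12 - s * ((α 0 1) ^ 2 / 2))) *
        (-(1 - (α 0 0) ^ 2 * exp (2 * s) / 6 - (α 0 1) ^ 2 / 2)))) s := by
    intro s
    have e1 : HasDerivAt (fun s : ℝ => exp (2 * s)) (exp (2 * s) * 2) s := by
      have := ((hasDerivAt_id s).const_mul 2).exp
      simpa using this
    have e2 : HasDerivAt (fun s : ℝ => -(s - (α 0 0) ^ 2 * exp (2 * s) / 12 - s * ((α 0 1) ^ 2 / 2)))
        (-(1 - (α 0 0) ^ 2 * exp (2 * s) / 6 - (α 0 1) ^ 2 / 2)) s := by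
      have := (((hasDerivAt_id s).sub ((e1.const_mul ((α 0 0) ^ 2)).div_const 12)).sub
        ((hasDerivAt_id s).mul_const ((α 0 1) ^ 2 / 2))).neg
      refine (this.congr_deriv ?_).congr_of_eventuallyEq (Filter.Eventually.of_forall fun y => ?_)
      · ring
      · simp
    exact (hasDerivAt_X hα s).mul e2.exp
  have hmono2 : MonotoneOn (fun s => α s 0 *
      exp (-(s - (α 0 0) ^ 2 * exp (2 * s) / 12 - s * ((α 0 1) ^ 2 / 2)))) (Icc 0 t) := by
    apply monotoneOn_of_deriv_nonneg (convex_Icc 0 t)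
    · exact fun s _ => (hd s).continuousAt.continuousWithinAt
    · exact fun s _ => (hd s).differentiableAt.differentiableWithinAt
    · intro s hs
      rw [interior_Icc] at hs
      rw [(hd s).deriv, ← mul_sinc (α s 0)]
      have h3 := hφ s (Ioo_subset_Icc_self hs)
      have h4 := X_nonneg hα h0 s
      have h5 := exp_pos (-(s - (α 0 0) ^ 2 * exp (2 * s) / 12 - s * ((α 0 1) ^ 2 / 2)))
      have : 0 ≤ (α s 0 * exp (-(s - (α 0 0) ^ 2 * exp (2 * s) / 12 - s * ((α 0 1) ^ 2 / 2)))) *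
        (sinc (α s 0) * cos (α s 1) - (1 - (α 0 0) ^ 2 * exp (2 * s) / 6 - (α 0 1) ^ 2 / 2)) :=
        mul_nonneg (by positivity) (sub_nonneg.2 h3)
      nlinarith
  have hfin := hmono2 ⟨le_rfl, ht⟩ ⟨ht, le_rfl⟩ ht
  simp only [mul_zero, exp_zero, mul_one, zero_mul, sub_zero, zero_sub, neg_neg] at hfin
  have hx0 : α 0 0 ≤ α 0 0 * exp ((α 0 0) ^ 2 / 12) := by
    have : 1 ≤ exp ((α 0 0) ^ 2 / 12) := one_le_exp (by positivity)
    nlinarith
  have hfin2 := hx0.trans hfin
  have h8 : (α 0 0) ^ 2 * exp (2 * t) ≤ 1 := by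
    have h7 : (α 0 0 * exp t) ^ 2 = (α 0 0) ^ 2 * exp (2 * t) := by
      rw [mul_pow, ← exp_nat_mul]; norm_num
    rw [← h7]
    have : 0 ≤ α 0 0 * exp t := by positivity
    nlinarith
  calc α 0 0 * exp t * exp (-(1 / 12 + t * (α 0 1) ^ 2 / 2))
      ≤ (α t 0 * exp (-(t - (α 0 0) ^ 2 * exp (2 * t) / 12 - t * ((α 0 1) ^ 2 / 2)))) * exp t *
        exp (-(1 / 12 + t * (α 0 1) ^ 2 / 2)) := by gcongr
    _ = α t 0 * exp ((α 0 0) ^ 2 * exp (2 * t) / 12 - 1 / 12) := by
        rw [mul_assoc, mul_assoc, ← exp_add, ← exp_add]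
        congr 2
        ring
    _ ≤ α t 0 * 1 := by
        have h9 := X_nonneg hα h0 t
        have h10 : exp ((α 0 0) ^ 2 * exp (2 * t) / 12 - 1 / 12) ≤ exp 0 :=
          exp_le_exp.2 (by linarith)
        rw [exp_zero] at h10
        gcongr
    _ = α t 0 := mul_one _

end traj


/-! ### The oscillating curve -/

noncomputable def F (q m : ℕ) (s : ℝ) : ℝ := s ^ m * sin ((s ^ q)⁻¹)
noncomputable def G (q m : ℕ) (s : ℝ) : ℝ := s ^ m * cos ((s ^ q)⁻¹)

lemma hasDerivAt_inv_pow (q : ℕ) (hq : 1 ≤ q) {s : ℝ} (hs : s ≠ 0) :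
    HasDerivAt (fun s : ℝ => (s ^ q)⁻¹) (-(q : ℝ) / s ^ (q + 1)) s := by
  have := (hasDerivAt_pow q s).inv (pow_ne_zero q hs)
  refine this.congr_deriv ?_
  obtain ⟨k, rfl⟩ : ∃ k, q = k + 1 := ⟨q - 1, by omega⟩
  simp only [Nat.add_sub_cancel]
  field_simp
  ring

lemma hasDerivAt_zero_of_sq (f : ℝ → ℝ) (hf : ∀ s, |f s| ≤ |s| ^ 2) : HasDerivAt f 0 0 := by
  have h0 : f 0 = 0 := by
    have := hf 0
    simpa using this
  rw [hasDerivAt_iff_isLittleO_nhds_zero]
  simp only [zero_add, h0, sub_zero, smul_zero]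
  have h1 : (fun h : ℝ => f h) =O[nhds 0] fun h : ℝ => h ^ 2 := by
    apply Asymptotics.IsBigO.of_bound 1
    filter_upwards with s
    rw [norm_eq_abs, norm_eq_abs, one_mul, abs_pow]
    exact hf s
  refine h1.trans_isLittleO ?_
  have := Asymptotics.isLittleO_pow_pow (𝕜 := ℝ) (m := 1) (n := 2) (by norm_num)
  simpa using this

lemma abs_F_le (q m : ℕ) (s : ℝ) : |F q m s| ≤ |s| ^ m := by
  rw [F, abs_mul, abs_pow]
  have := abs_sin_le_one ((s ^ q)⁻¹)
  have h2 : 0 ≤ |s| ^ m := by positivity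
  nlinarith

lemma abs_G_le (q m : ℕ) (s : ℝ) : |G q m s| ≤ |s| ^ m := by
  rw [G, abs_mul, abs_pow]
  have := abs_cos_le_one ((s ^ q)⁻¹)
  have h2 : 0 ≤ |s| ^ m := by positivity
  nlinarith

lemma hasDerivAt_F (q m : ℕ) (hq : 1 ≤ q) (hm : q + 2 ≤ m) (s : ℝ) :
    HasDerivAt (F q m) (m * F q (m - 1) s - q * G q (m - q - 1) s) s := by
  rcases eq_or_ne s 0 with rfl | hs
  · have e1 : F q (m - 1) 0 = 0 := by
      rw [F, zero_pow (by omega), zero_mul]
    have e2 : G q (m - q - 1) 0 = 0 := by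
      rw [G, zero_pow (by omega), zero_mul]
    rw [e1, e2]
    simp only [mul_zero, sub_zero]
    -- near zero |F| ≤ |s|^m ≤ |s|^2
    have : HasDerivAt (fun s : ℝ => max (-s ^ 2) (min (F q m s) (s ^ 2))) 0 0 := by
      apply hasDerivAt_zero_of_sq
      intro s
      rw [abs_le, sq_abs]
      constructor
      · exact le_max_left _ _
      · exact max_le (by nlinarith [sq_nonneg s]) (min_le_right _ _)
    refine this.congr_of_eventuallyEq ?_
    have h1 : ∀ᶠ s : ℝ in nhds 0, |s| ≤ 1 := by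
      have : Metric.closedBall (0:ℝ) 1 ∈ nhds (0:ℝ) := Metric.closedBall_mem_nhds _ one_pos
      filter_upwards [this] with s hs
      simpa [Metric.mem_closedBall, dist_zero_right] using hs
    filter_upwards [h1] with s hs
    have h2 := abs_F_le q m s
    have h3 : |s| ^ m ≤ |s| ^ 2 := pow_le_pow_of_le_one (abs_nonneg s) hs (by omega)
    have h4 := abs_le.1 (h2.trans h3)
    rw [sq_abs] at h4
    rw [min_eq_left h4.2, max_eq_right h4.1]
  · have h1 := (hasDerivAt_pow m s).mul ((hasDerivAt_inv_pow q hq hs).sin)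
    refine h1.congr_deriv ?_
    obtain ⟨k, rfl⟩ : ∃ k, m = k + q + 1 := ⟨m - q - 1, by omega⟩
    have e3 : k + q + 1 - 1 = k + q := by omega
    have e4 : k + q + 1 - q - 1 = k := by omega
    simp only [F, G, e3, e4]
    have e5 : s ^ (k + q + 1) = s ^ k * s ^ (q + 1) := by ring
    rw [e5]
    field_simp
    ring

lemma hasDerivAt_G (q m : ℕ) (hq : 1 ≤ q) (hm : q + 2 ≤ m) (s : ℝ) :
    HasDerivAt (G q m) (m * G q (m - 1) s + q * F q (m - q - 1) s) s := by
  rcases eq_or_ne s 0 with rfl | hs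
  · have e1 : G q (m - 1) 0 = 0 := by
      rw [G, zero_pow (by omega), zero_mul]
    have e2 : F q (m - q - 1) 0 = 0 := by
      rw [F, zero_pow (by omega), zero_mul]
    rw [e1, e2]
    simp only [mul_zero, add_zero]
    have : HasDerivAt (fun s : ℝ => max (-s ^ 2) (min (G q m s) (s ^ 2))) 0 0 := by
      apply hasDerivAt_zero_of_sq
      intro s
      rw [abs_le, sq_abs]
      constructor
      · exact le_max_left _ _
      · exact max_le (by nlinarith [sq_nonneg s]) (min_le_right _ _)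
    refine this.congr_of_eventuallyEq ?_
    have h1 : ∀ᶠ s : ℝ in nhds 0, |s| ≤ 1 := by
      have : Metric.closedBall (0:ℝ) 1 ∈ nhds (0:ℝ) := Metric.closedBall_mem_nhds _ one_pos
      filter_upwards [this] with s hs
      simpa [Metric.mem_closedBall, dist_zero_right] using hs
    filter_upwards [h1] with s hs
    have h2 := abs_G_le q m s
    have h3 : |s| ^ m ≤ |s| ^ 2 := pow_le_pow_of_le_one (abs_nonneg s) hs (by omega)
    have h4 := abs_le.1 (h2.trans h3)
    rw [sq_abs] at h4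
    rw [min_eq_left h4.2, max_eq_right h4.1]
  · have h1 := (hasDerivAt_pow m s).mul ((hasDerivAt_inv_pow q hq hs).cos)
    refine h1.congr_deriv ?_
    obtain ⟨k, rfl⟩ : ∃ k, m = k + q + 1 := ⟨m - q - 1, by omega⟩
    have e3 : k + q + 1 - 1 = k + q := by omega
    have e4 : k + q + 1 - q - 1 = k := by omega
    simp only [F, G, e3, e4]
    have e5 : s ^ (k + q + 1) = s ^ k * s ^ (q + 1) := by ring
    rw [e5]
    field_simp

lemma continuous_F (q m : ℕ) (hm : 1 ≤ m) : Continuous (F q m) := by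
  rw [continuous_iff_continuousAt]
  intro s
  rcases eq_or_ne s 0 with rfl | hs
  · have h0 : F q m 0 = 0 := by rw [F, zero_pow (by omega), zero_mul]
    rw [ContinuousAt, h0]
    apply squeeze_zero_norm (a := fun s => |s| ^ m)
    · intro s; exact abs_F_le q m s
    · have : Filter.Tendsto (fun s : ℝ => |s| ^ m) (nhds 0) (nhds (|0| ^ m)) :=
        (continuous_abs.pow m).continuousAt
      simpa [zero_pow (show m ≠ 0 by omega)] using this
  · unfold F
    have : s ^ q ≠ 0 := pow_ne_zero q hs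
    fun_prop (disch := assumption)

lemma continuous_G (q m : ℕ) (hm : 1 ≤ m) : Continuous (G q m) := by
  rw [continuous_iff_continuousAt]
  intro s
  rcases eq_or_ne s 0 with rfl | hs
  · have h0 : G q m 0 = 0 := by rw [G, zero_pow (by omega), zero_mul]
    rw [ContinuousAt, h0]
    apply squeeze_zero_norm (a := fun s => |s| ^ m)
    · intro s; exact abs_G_le q m s
    · have : Filter.Tendsto (fun s : ℝ => |s| ^ m) (nhds 0) (nhds (|0| ^ m)) :=
        (continuous_abs.pow m).continuousAt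
      simpa [zero_pow (show m ≠ 0 by omega)] using this
  · unfold G
    have : s ^ q ≠ 0 := pow_ne_zero q hs
    fun_prop (disch := assumption)

lemma contDiff_FG (q : ℕ) (hq : 1 ≤ q) (r : ℕ) : ∀ m, r * (q + 1) + 1 ≤ m →
    ContDiff ℝ r (F q m) ∧ ContDiff ℝ r (G q m) := by
  induction r with
  | zero =>
    intro m hm
    simp only [CharP.cast_eq_zero, contDiff_zero]
    exact ⟨continuous_F q m (by omega), continuous_G q m (by omega)⟩
  | succ r ih =>
    intro m hm
    have hm' : r * (q + 1) + (q + 1) + 1 ≤ m := by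
      have : (r + 1) * (q + 1) = r * (q + 1) + (q + 1) := by ring
      omega
    have hm2 : q + 2 ≤ m := by
      have : 0 ≤ r * (q + 1) := Nat.zero_le _
      omega
    have a1 : r * (q + 1) + 1 ≤ m - 1 := by omega
    have a2 : r * (q + 1) + 1 ≤ m - q - 1 := by omega
    have dF := hasDerivAt_F q m hq hm2
    have dG := hasDerivAt_G q m hq hm2
    have eF : deriv (F q m) = fun s => m * F q (m - 1) s - q * G q (m - q - 1) s :=
      funext fun s => (dF s).deriv
    have eG : deriv (G q m) = fun s => m * G q (m - 1) s + q * F q (m - q - 1) s :=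
      funext fun s => (dG s).deriv
    constructor
    · rw [show ((r + 1 : ℕ) : WithTop ℕ∞) = (r : WithTop ℕ∞) + 1 by push_cast; rfl]
      rw [contDiff_succ_iff_deriv]
      refine ⟨fun s => (dF s).differentiableAt, by simp, ?_⟩
      rw [eF]
      exact (contDiff_const.mul (ih _ a1).1).sub (contDiff_const.mul (ih _ a2).2)
    · rw [show ((r + 1 : ℕ) : WithTop ℕ∞) = (r : WithTop ℕ∞) + 1 by push_cast; rfl]
      rw [contDiff_succ_iff_deriv]
      refine ⟨fun s => (dG s).differentiableAt, by simp, ?_⟩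
      rw [eG]
      exact (contDiff_const.mul (ih _ a1).2).add (contDiff_const.mul (ih _ a2).1)

/-- the curve: a graph over the stable direction, oscillating near its endpoint -/
noncomputable def curve (q m : ℕ) (s : ℝ) : Plane :=
  WithLp.toLp 2 ![s ^ m - G q m s, s]

lemma contDiff_curve (q m r : ℕ) (hq : 1 ≤ q) (hm : r * (q + 1) + 1 ≤ m) :
    ContDiff ℝ r (curve q m) := by
  rw [contDiff_euclidean]
  intro i
  fin_cases i
  · simp only [curve]
    exact (contDiff_id.pow m).sub (contDiff_FG q hq r m hm).2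
  · simp only [curve]
    exact contDiff_id


/-! ### Times at which the curve is sampled -/

/-- sample parameters: `(v q i)^q = 1/(iπ)` -/
noncomputable def v (q i : ℕ) : ℝ := (((i : ℝ) * π)⁻¹) ^ ((q : ℝ)⁻¹)

lemma v_pow (q i : ℕ) (hq : 1 ≤ q) : v q i ^ q = ((i : ℝ) * π)⁻¹ := by
  unfold v
  exact Real.rpow_inv_natCast_pow (by positivity) (by omega)

lemma v_nonneg (q i : ℕ) : 0 ≤ v q i := by unfold v; positivity

lemma v_anti (q : ℕ) {i j : ℕ} (hi : 1 ≤ i) (hij : i ≤ j) : v q j ≤ v q i := by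
  unfold v
  have hi' : (0:ℝ) < i := by exact_mod_cast hi
  have hij' : (i:ℝ) ≤ j := by exact_mod_cast hij
  have := pi_pos
  apply Real.rpow_le_rpow (by positivity) _ (by positivity)
  apply inv_anti₀ (by positivity)
  gcongr

lemma v_le_one (q i : ℕ) (hi : 1 ≤ i) : v q i ≤ 1 := by
  unfold v
  have hi' : (1:ℝ) ≤ i := by exact_mod_cast hi
  have := pi_gt_three
  apply Real.rpow_le_one (by positivity) _ (by positivity)
  apply inv_le_one_of_one_le₀
  nlinarith

lemma curve_v_even (q m i : ℕ) (hq : 1 ≤ q) (hi : Even i) : curve q m (v q i) 0 = 0 := by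
  simp only [curve, G]
  simp only [Matrix.cons_val_zero]
  rw [v_pow q i hq, inv_inv]
  obtain ⟨k, rfl⟩ := hi
  have : cos (((k + k : ℕ) : ℝ) * π) = 1 := by
    rw [show ((k + k : ℕ) : ℝ) * π = (k : ℝ) * (2 * π) by push_cast; ring]
    exact cos_nat_mul_two_pi k
  rw [this]
  ring

lemma curve_v_odd (q m i : ℕ) (hq : 1 ≤ q) (hi : Odd i) :
    curve q m (v q i) 0 = 2 * v q i ^ m := by
  simp only [curve, G]
  simp only [Matrix.cons_val_zero]
  rw [v_pow q i hq, inv_inv]
  obtain ⟨k, rfl⟩ := hi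
  have : cos (((2 * k + 1 : ℕ) : ℝ) * π) = -1 := by
    rw [show ((2 * k + 1 : ℕ) : ℝ) * π = (k : ℝ) * (2 * π) + π by push_cast; ring]
    rw [cos_add_pi, cos_nat_mul_two_pi]
  rw [this]
  ring

lemma v_pow_m (q m i : ℕ) : v q i ^ m = ((((i : ℝ) * π)) ^ ((m : ℝ) / q))⁻¹ := by
  have h : (0:ℝ) ≤ (i : ℝ) * π := by positivity
  unfold v
  rw [← Real.rpow_natCast, ← Real.rpow_mul (by positivity), Real.inv_rpow h]
  congr 2
  rw [div_eq_mul_inv, mul_comm]

/-- key estimate on sampled peaks -/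
lemma peak_estimate (q m i : ℕ) (hq : 1 ≤ q) (hm : 1 ≤ m) (hi : Odd i) (hi1 : 1 ≤ i) {t : ℝ}
    (ht : 0 ≤ t)
    (h1 : (2 * exp t) ^ ((q : ℝ) / m) ≤ (i : ℝ) * π)
    (h2 : (i : ℝ) * π ≤ 32 * (2 * exp t) ^ ((q : ℝ) / m))
    {α : ℝ → Plane} (hα : ∀ t, HasDerivAt α (U (α t)) t) (h0 : α 0 = curve q m (v q i)) :
    ((32 : ℝ) ^ ((m : ℝ) / q))⁻¹ * exp (-(1 / 12 + (m : ℝ) / 4)) ≤ α t 0 ∧ α t 0 ≤ 1 := by
  have hq' : (0:ℝ) < q := by exact_mod_cast hq
  have hm' : (0:ℝ) < m := by exact_mod_cast hm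
  have hi' : (0:ℝ) < i := by exact_mod_cast hi1
  have hπ := pi_pos
  have hz : (0:ℝ) < (i : ℝ) * π := by positivity
  have hX0 : α 0 0 = 2 * v q i ^ m := by rw [h0]; exact curve_v_odd q m i hq hi
  have hY0 : α 0 1 = v q i := by rw [h0]; simp [curve]
  have hcancel : ((2 * exp t) ^ ((q : ℝ) / m)) ^ ((m : ℝ) / q) = 2 * exp t := by
    rw [← Real.rpow_mul (by positivity)]
    rw [show (q : ℝ) / m * (m / q) = 1 by field_simp]
    exact Real.rpow_one _
  have hlow : 2 * exp t ≤ ((i : ℝ) * π) ^ ((m : ℝ) / q) := by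
    rw [← hcancel]
    exact Real.rpow_le_rpow (by positivity) h1 (by positivity)
  have hup : ((i : ℝ) * π) ^ ((m : ℝ) / q) ≤ 32 ^ ((m : ℝ) / q) * (2 * exp t) := by
    calc ((i : ℝ) * π) ^ ((m : ℝ) / q)
        ≤ (32 * (2 * exp t) ^ ((q : ℝ) / m)) ^ ((m : ℝ) / q) :=
          Real.rpow_le_rpow (by positivity) h2 (by positivity)
      _ = 32 ^ ((m : ℝ) / q) * (2 * exp t) := by
          rw [Real.mul_rpow (by norm_num) (by positivity), hcancel]
  have hA1 : α 0 0 * exp t ≤ 1 := by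
    rw [hX0, v_pow_m]
    have : 0 < ((i : ℝ) * π) ^ ((m : ℝ) / q) := by positivity
    rw [show 2 * (((i : ℝ) * π) ^ ((m : ℝ) / q))⁻¹ * exp t
      = (2 * exp t) / (((i : ℝ) * π) ^ ((m : ℝ) / q)) by field_simp]
    rw [div_le_one this]
    exact hlow
  have hA2 : ((32 : ℝ) ^ ((m : ℝ) / q))⁻¹ ≤ α 0 0 * exp t := by
    rw [hX0, v_pow_m]
    have h3 : 0 < ((i : ℝ) * π) ^ ((m : ℝ) / q) := by positivity
    have h4 : (0:ℝ) < 32 ^ ((m : ℝ) / q) := by positivity
    rw [show 2 * (((i : ℝ) * π) ^ ((m : ℝ) / q))⁻¹ * exp t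
      = (2 * exp t) / (((i : ℝ) * π) ^ ((m : ℝ) / q)) by field_simp]
    rw [le_div_iff₀ h3, inv_mul_le_iff₀ h4]
    exact hup
  have hX0n : 0 ≤ α 0 0 := by
    rw [hX0]
    have := v_nonneg q i
    positivity
  constructor
  · refine le_trans ?_ (X_ge hα hX0n ht hA1)
    have hY : t * (α 0 1) ^ 2 / 2 ≤ (m : ℝ) / 4 := by
      rw [hY0]
      -- v^2 ≤ exp(-2t/m)
      have e1 : exp (t * ((q : ℝ) / m)) ≤ (i : ℝ) * π := by
        refine le_trans ?_ h1
        rw [Real.exp_mul]
        apply Real.rpow_le_rpow (by positivity) _ (by positivity)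
        have := exp_pos t
        linarith
      have e2 : v q i ≤ exp (-(t / m)) := by
        unfold v
        have : (((i : ℝ) * π)⁻¹) ≤ exp (-(t * ((q : ℝ) / m))) := by
          rw [exp_neg]
          exact inv_anti₀ (exp_pos _) e1
        calc (((i : ℝ) * π)⁻¹) ^ ((q : ℝ)⁻¹) ≤ (exp (-(t * ((q : ℝ) / m)))) ^ ((q : ℝ)⁻¹) :=
              Real.rpow_le_rpow (by positivity) this (by positivity)
          _ = exp (-(t / m)) := by
              rw [← Real.exp_mul]
              congr 1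
              field_simp
      have e3 : v q i ^ 2 ≤ exp (-(2 * t / m)) := by
        calc v q i ^ 2 ≤ (exp (-(t / m))) ^ 2 := pow_le_pow_left₀ (v_nonneg q i) e2 2
          _ = exp (-(2 * t / m)) := by
              rw [← exp_nat_mul]
              congr 1
              push_cast
              ring
      have e4 : (2 * t / m) * exp (-(2 * t / m)) ≤ 1 := by
        rw [exp_neg, ← div_eq_mul_inv, div_le_one (exp_pos _)]
        have := add_one_le_exp (2 * t / m)
        linarith
      have e5 : t * exp (-(2 * t / m)) ≤ m / 2 := by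
        have : t * exp (-(2 * t / m)) = (m / 2) * ((2 * t / m) * exp (-(2 * t / m))) := by
          field_simp
        rw [this]
        have : (0:ℝ) ≤ m / 2 := by positivity
        nlinarith
      have e6 : t * v q i ^ 2 ≤ t * exp (-(2 * t / m)) := by gcongr
      linarith
    have h5 : exp (-(1 / 12 + (m : ℝ) / 4)) ≤ exp (-(1 / 12 + t * (α 0 1) ^ 2 / 2)) :=
      exp_le_exp.2 (by linarith)
    gcongr
  · exact (X_le hα hX0n ht).trans hA1


/-! ### Distances on the torus -/

lemma edist_proj_ge {x y : Plane} (h : |x 0 - y 0| ≤ π) :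
    ENNReal.ofReal |x 0 - y 0| ≤ edist (proj x) (proj y) := by
  refine le_trans ?_ (PiLp.edist_apply_le (p := 2) (proj x) (proj y) 0)
  rw [edist_dist]
  apply ENNReal.ofReal_le_ofReal
  have h2 : ‖((x 0 - y 0 : ℝ) : AddCircle (2 * π))‖ = |x 0 - y 0| := by
    rw [AddCircle.norm_coe_eq_abs_iff (2 * π) (by positivity)]
    rw [abs_of_pos (by positivity : (0:ℝ) < 2 * π)]
    linarith
  rw [← h2]
  simp only [proj, dist_eq_norm]
  exact le_rfl

lemma length_lower (q m : ℕ) (hq : 1 ≤ q) (hm : 1 ≤ m) {Φ : ℝ → Plane → Plane}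
    (hΦ0 : ∀ x, Φ 0 x = x) (hΦ : ∀ t x, HasDerivAt (fun τ => Φ τ x) (U (Φ t x)) t)
    {t : ℝ} (ht : 0 ≤ t) :
    ENNReal.ofReal ((((32 : ℝ) ^ ((m : ℝ) / q))⁻¹ * exp (-(1 / 12 + (m : ℝ) / 4))) *
      exp (((q : ℝ) / m) * t)) ≤ imageLength Φ (curve q m) t := by
  have hq' : (0:ℝ) < q := by exact_mod_cast hq
  have hm' : (0:ℝ) < m := by exact_mod_cast hm
  set c := ((32 : ℝ) ^ ((m : ℝ) / q))⁻¹ * exp (-(1 / 12 + (m : ℝ) / 4)) with hc
  have hcpos : 0 < c := by positivity
  set B := (2 * exp t) ^ ((q : ℝ) / m) with hB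
  have hB1 : 1 ≤ B := by
    apply Real.one_le_rpow _ (by positivity)
    have := one_le_exp ht
    linarith
  set K := ⌈B⌉₊ with hK
  have hK1 : B ≤ K := Nat.le_ceil B
  have hK2 : (K : ℝ) < B + 1 := Nat.ceil_lt_add_one (by linarith)
  have hKpos : 1 ≤ K := by
    have : (0:ℝ) < K := by linarith
    exact_mod_cast this
  have hπ3 := pi_gt_three
  have hπ4 := pi_lt_d2
  -- the sampled points
  have hpeak : ∀ i : ℕ, 2 * K + 1 ≤ i → i ≤ 4 * K + 1 → Odd i →
      c ≤ Φ t (curve q m (v q i)) 0 ∧ Φ t (curve q m (v q i)) 0 ≤ 1 := by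
    intro i hi1 hi2 hodd
    have hi1' : (2 * K + 1 : ℝ) ≤ i := by exact_mod_cast hi1
    have hi2' : (i : ℝ) ≤ 4 * K + 1 := by exact_mod_cast hi2
    refine peak_estimate q m i hq hm hodd (by omega) ht ?_ ?_
      (α := fun τ => Φ τ (curve q m (v q i))) (fun τ => hΦ τ _) (hΦ0 _)
    · nlinarith
    · have : (i : ℝ) * π ≤ (4 * K + 1) * 3.15 := by nlinarith
      nlinarith
  have hzero : ∀ i : ℕ, Even i → Φ t (curve q m (v q i)) 0 = 0 := by
    intro i hev
    refine X_eq_zero (α := fun τ => Φ τ (curve q m (v q i))) (fun τ => hΦ τ _) ?_ t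
    simp only [hΦ0]
    exact curve_v_even q m i hq hev
  have hterm : ∀ j < 2 * K, ENNReal.ofReal c ≤
      edist (proj (Φ t (curve q m (v q (4 * K + 1 - (j + 1))))))
        (proj (Φ t (curve q m (v q (4 * K + 1 - j))))) := by
    intro j hj
    obtain ⟨i, hi⟩ : ∃ i, 4 * K + 1 - (j + 1) = i := ⟨_, rfl⟩
    have hi' : 4 * K + 1 - j = i + 1 := by omega
    rw [hi, hi']
    rcases Nat.even_or_odd i with hev | hodd
    · have h1 := hzero i hev
      have h2 := hpeak (i + 1) (by omega) (by omega) hev.add_one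
      have h3 : |Φ t (curve q m (v q i)) 0 - Φ t (curve q m (v q (i + 1))) 0|
          = Φ t (curve q m (v q (i + 1))) 0 := by
        rw [h1, zero_sub, abs_neg, abs_of_nonneg (by linarith [h2.1])]
      refine le_trans ?_ (edist_proj_ge (by rw [h3]; linarith [h2.2]))
      rw [h3]
      exact ENNReal.ofReal_le_ofReal h2.1
    · have h1 := hzero (i + 1) hodd.add_one
      have h2 := hpeak i (by omega) (by omega) hodd
      have h3 : |Φ t (curve q m (v q i)) 0 - Φ t (curve q m (v q (i + 1))) 0|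
          = Φ t (curve q m (v q i)) 0 := by
        rw [h1, sub_zero, abs_of_nonneg (by linarith [h2.1])]
      refine le_trans ?_ (edist_proj_ge (by rw [h3]; linarith [h2.2]))
      rw [h3]
      exact ENNReal.ofReal_le_ofReal h2.1
  have hsum : ∑ j ∈ Finset.range (2 * K), ENNReal.ofReal c ≤ imageLength Φ (curve q m) t := by
    refine le_trans (Finset.sum_le_sum fun j hj => hterm j (Finset.mem_range.1 hj)) ?_
    refine eVariationOn.sum_le_of_monotoneOn_Iic (f := fun s => proj (Φ t (curve q m s)))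
      (u := fun j => v q (4 * K + 1 - j)) ?_ ?_
    · intro j hj k hk hjk
      have hj' : j ≤ 2 * K := hj
      have hk' : k ≤ 2 * K := hk
      exact v_anti q (by omega) (by omega)
    · intro j hj
      exact ⟨v_nonneg _ _, v_le_one _ _ (by omega)⟩
  refine le_trans ?_ hsum
  rw [Finset.sum_const, Finset.card_range, nsmul_eq_mul, ← ENNReal.ofReal_natCast,
    ← ENNReal.ofReal_mul (by positivity)]
  apply ENNReal.ofReal_le_ofReal
  have h5 : exp (((q : ℝ) / m) * t) ≤ B := by
    rw [hB, mul_comm, Real.exp_mul]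
    apply Real.rpow_le_rpow (by positivity) _ (by positivity)
    have := exp_pos t
    linarith
  push_cast
  calc c * exp (((q : ℝ) / m) * t) ≤ c * B := by gcongr
    _ ≤ c * (2 * K) := by
        have : B ≤ 2 * K := by linarith
        gcongr
    _ = 2 * K * c := by ring


lemma contDiff_U : ContDiff ℝ ∞ U := by
  rw [contDiff_euclidean]
  intro i
  fin_cases i
  · simp only [U]
    simp
    fun_prop
  · simp only [U]
    simp
    fun_prop

lemma contDiff_P : ContDiff ℝ ∞ P := by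
  unfold P
  fun_prop

lemma periodic_U : DoublyPeriodic U := by
  intro x i
  fin_cases i
  · ext j
    fin_cases j <;> simp [U]
  · ext j
    fin_cases j <;> simp [U]

lemma periodic_P : DoublyPeriodic P := by
  intro x i
  have h : ∀ y : ℝ, cos (2 * (y + 2 * π)) = cos (2 * y) := by
    intro y
    rw [show 2 * (y + 2 * π) = 2 * y + (2 : ℕ) * (2 * π) by push_cast; ring]
    exact cos_add_nat_mul_two_pi _ _
  fin_cases i
  · simp [P, h]
  · simp [P, h]

lemma isEulerSolution : IsEulerSolution (fun _ => U) (fun _ => P) where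
  smooth_velocity := contDiff_U.comp contDiff_snd
  smooth_pressure := contDiff_P.comp contDiff_snd
  periodic_velocity := fun _ => periodic_U
  periodic_pressure := fun _ => periodic_P
  momentum := by
    intro t x
    rw [deriv_const, zero_add, fderiv_U]
    exact steady x
  divergence_free := fun _ x => div_U x

lemma exists_flow : ∃ Φ : ℝ → Plane → Plane, IsFlow (fun _ => U) Φ := by
  choose β hβ0 hβ using exists_global
  refine ⟨fun t x => β x t, fun x => hβ0 x, fun t x => hβ x t, ?_⟩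
  intro t x i
  have key : β (x + EuclideanSpace.single i (2 * π)) =
      fun t => β x t + EuclideanSpace.single i (2 * π) := by
    refine ODE_solution_unique_univ (v := fun _ => U) (s := fun _ => univ) (K := 1) (t₀ := 0)
      (fun _ => lipschitz_U.lipschitzOnWith) (fun t => ⟨hβ _ t, mem_univ _⟩) (fun t => ⟨?_, mem_univ _⟩) ?_
    · rw [periodic_U]
      exact (hβ x t).add_const _
    · simp only [hβ0]
  exact congrFun key t

lemma proj_lipschitz : LipschitzWith 1 proj := by
  apply LipschitzWith.of_dist_le_mul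
  intro x y
  rw [NNReal.coe_one, one_mul, PiLp.dist_eq_of_L2, EuclideanSpace.dist_eq]
  apply Real.sqrt_le_sqrt
  apply Finset.sum_le_sum
  intro i _
  apply pow_le_pow_left₀ dist_nonneg
  simp only [proj, dist_eq_norm]
  rw [← AddCircle.coe_sub]
  exact QuotientAddGroup.norm_mk_le_norm

lemma imageLength_lt_top {r : ℕ} (hr : 1 ≤ r) {Φ : ℝ → Plane → Plane}
    (hΦ0 : ∀ x, Φ 0 x = x) (hΦ : ∀ t x, HasDerivAt (fun τ => Φ τ x) (U (Φ t x)) t)
    {l : ℝ → Plane} (hl : ContDiff ℝ r l) {t : ℝ} (ht : 0 ≤ t) : imageLength Φ l t < ⊤ := by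
  have hl1 : ContDiff ℝ 1 l := hl.of_le (by exact_mod_cast hr)
  obtain ⟨C, hC⟩ : ∃ C : ℝ≥0, LipschitzOnWith C l (Icc 0 1) := by
    have hcont : Continuous (fun s => ‖deriv l s‖₊) := (hl1.continuous_deriv le_rfl).nnnorm
    obtain ⟨C, hC⟩ := (isCompact_Icc (a := (0:ℝ)) (b := 1)).bddAbove_image hcont.continuousOn
    refine ⟨C, (convex_Icc 0 1).lipschitzOnWith_of_nnnorm_deriv_le
      (fun s _ => (hl1.differentiable one_ne_zero) s) fun s hs => hC (mem_image_of_mem _ hs)⟩
  have hΦL : LipschitzWith (Real.toNNReal (exp t)) (Φ t) := by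
    apply LipschitzWith.of_dist_le_mul
    intro x y
    have := dist_le_of_trajectories_ODE (v := fun _ => U) (K := 1) (a := 0) (b := t)
      (f := fun τ => Φ τ x) (g := fun τ => Φ τ y) (δ := dist x y)
      (fun _ => lipschitz_U)
      (fun τ _ => (hΦ τ x).continuousAt.continuousWithinAt)
      (fun τ _ => (hΦ τ x).hasDerivWithinAt)
      (fun τ _ => (hΦ τ y).continuousAt.continuousWithinAt)
      (fun τ _ => (hΦ τ y).hasDerivWithinAt) (by simp [hΦ0]) t ⟨ht, le_rfl⟩
    rw [Real.coe_toNNReal _ (exp_pos t).le, mul_comm]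
    simpa using this
  have hcomp : LipschitzOnWith (1 * (Real.toNNReal (exp t) * C))
      (fun s => proj (Φ t (l s))) (Icc 0 1) :=
    (proj_lipschitz.lipschitzOnWith (s := univ)).comp
      ((hΦL.lipschitzOnWith (s := univ)).comp hC (mapsTo_univ _ _)) (mapsTo_univ _ _)
  have h2 := hcomp.comp_eVariationOn_le (g := fun s : ℝ => s) (s := Icc 0 1) (fun s hs => hs)
  have h3 : eVariationOn (fun s : ℝ => s) (Icc 0 1) ≤ ENNReal.ofReal (1 - 0) := by
    have h4 := (monotone_id.monotoneOn (Icc (0:ℝ) 1)).eVariationOn_eq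
      (left_mem_Icc.2 zero_le_one) (right_mem_Icc.2 zero_le_one)
    rw [inter_self] at h4
    exact h4.le
  refine lt_of_le_of_lt h2 ?_
  refine lt_of_le_of_lt (mul_le_mul' le_rfl h3) ?_
  exact ENNReal.mul_lt_top ENNReal.coe_lt_top ENNReal.ofReal_lt_top

/-- There is a smooth, steady solution of the 2D Euler equations on the torus, with
`|u| ≤ 1` and `|∇u| ≤ 1`, such that for every finite `r ≥ 1` and every rate `γ < 1/r` there is a
regular embedded curve of class `C^r` and finite length whose length under the flow is at least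
`c e^{γ t}` for all `t ≥ 0`. -/
theorem result :
    ∃ (u : ℝ → Plane → Plane) (p : ℝ → Plane → ℝ) (Φ : ℝ → Plane → Plane),
      IsEulerSolution u p ∧ (∀ t, u t = u 0) ∧
      (∀ t x, ‖u t x‖ ≤ 1 ∧ ‖fderiv ℝ (u t) x‖ ≤ 1) ∧
      IsFlow u Φ ∧
      ∀ r : ℕ, 1 ≤ r → ∀ γ : ℝ, γ < 1 / r →
        ∃ l : ℝ → Plane, ContDiff ℝ r l ∧ (∀ s, deriv l s ≠ 0) ∧
          Set.InjOn (fun s => proj (l s)) (Set.Icc 0 1) ∧
          (∀ t : ℝ, 0 ≤ t → imageLength Φ l t < ⊤) ∧
          ∃ c : ℝ, 0 < c ∧ ∀ t : ℝ, 0 ≤ t →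
            ENNReal.ofReal (c * Real.exp (γ * t)) ≤ imageLength Φ l t := by
  obtain ⟨Φ, hΦ⟩ := exists_flow
  refine ⟨fun _ => U, fun _ => P, Φ, isEulerSolution, fun _ => rfl,
    fun _ x => ⟨norm_U_le x, norm_fderiv_U_le x⟩, hΦ, ?_⟩
  intro r hr γ hγ
  have hr' : (0:ℝ) < r := by exact_mod_cast hr
  -- choose q large
  obtain ⟨q, hq1, hq2⟩ : ∃ q : ℕ, 1 ≤ q ∧ γ ≤ (q : ℝ) / ((r * (q + 1) + 1 : ℕ) : ℝ) := by
    have h1 : 0 < 1 - γ * r := by
      have : γ * r < 1 := by
        rwa [lt_div_iff₀ hr'] at hγ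
      linarith
    obtain ⟨q, hq⟩ := exists_nat_ge (max 1 (γ * (r + 1) / (1 - γ * r)))
    refine ⟨q, ?_, ?_⟩
    · have := (le_max_left _ _).trans hq
      exact_mod_cast this
    · have h2 := (le_max_right _ _).trans hq
      rw [div_le_iff₀ h1] at h2
      rw [le_div_iff₀ (by positivity)]
      push_cast
      nlinarith
  set m := r * (q + 1) + 1 with hm
  have hm1 : 1 ≤ m := by omega
  have hl : ContDiff ℝ r (curve q m) := contDiff_curve q m r hq1 le_rfl
  refine ⟨curve q m, hl, ?_, ?_, ?_, ?_⟩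
  · intro s hs
    have hl1 : ContDiff ℝ 1 (curve q m) := hl.of_le (by exact_mod_cast hr)
    have h1 : HasDerivAt (curve q m) (deriv (curve q m) s) s :=
      ((hl1.differentiable one_ne_zero) s).hasDerivAt
    have h2 := (hasFDerivAt_coord 1 (curve q m s)).comp_hasDerivAt s h1
    have h3 : ((fun y : Plane => y 1) ∘ curve q m) = fun s => s := by
      ext s; simp [curve]
    rw [h3, hs] at h2
    have := h2.unique (hasDerivAt_id s)
    simp at this
  · intro s hs s' hs' h
    have h1 : ((s : ℝ) : AddCircle (2 * π)) = ((s' : ℝ) : AddCircle (2 * π)) := by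
      have := congrArg (fun z : Torus => z 1) h
      simpa [proj, curve] using this
    have : Fact (0 < 2 * π) := ⟨by positivity⟩
    have hπ := pi_gt_three
    refine (AddCircle.coe_eq_coe_iff_of_mem_Ico (a := 0) ?_ ?_).1 h1
    · exact ⟨hs.1, by linarith [hs.2]⟩
    · exact ⟨hs'.1, by linarith [hs'.2]⟩
  · intro t ht
    exact imageLength_lt_top hr hΦ.initial hΦ.hasDerivAt hl ht
  · refine ⟨((32 : ℝ) ^ ((m : ℝ) / q))⁻¹ * exp (-(1 / 12 + (m : ℝ) / 4)), by positivity, ?_⟩
    intro t ht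
    refine le_trans ?_ (length_lower q m hq1 hm1 hΦ.initial hΦ.hasDerivAt ht)
    apply ENNReal.ofReal_le_ofReal
    gcongr

end Pool.Agent.Results.MP_d5a48f_an.CurveStretching
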